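import Mathlib
import Pool.Agent.helper85.PG.Spec2

/-!
# BSH: the Burgess shift
-/

set_option autoImplicit false

namespace Pool.Agent.helper85.PG

open Module Pointwise

theorem BSH : BSH_stmt := by
  intro p hp Z w η X T χ Ψ s ψ hw hsupp hreg hX hX0 hT hXT hΨ
  have hχ : ∀ a, ‖χ a‖ ≤ 1 := fun a => DirichletCharacter.norm_le_one χ a
  have hψ : ∀ a, ‖ψ a‖ = 1 := fun a => AddChar.norm_apply ψ a
  have hΨ0 : ∀ u, 0 ≤ Ψ u := fun u => (norm_nonneg _).trans (hΨ u 1 (by rw [norm_one]))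
  obtain ⟨S, hS⟩ : ∃ S : ℂ, S = ∑ c : ZMod p, ((w c : ℂ) * χ (c + s)) * ψ c := ⟨_, rfl⟩
  rw [← hS]
  -- the shift
  have hshift : ∀ h : ZMod p, h ∈ Z η →
      ‖S - ∑ c : ZMod p, ((w c : ℂ) * χ (c + h + s)) * (ψ c * ψ h)‖ ≤
        16 * η * ((Z 1).card : ℝ) := by
    intro h hh
    have h1 : S = ∑ c : ZMod p, ((w (c + h) : ℂ) * χ (c + h + s)) * (ψ c * ψ h) := by
      rw [hS, ← Equiv.sum_comp (Equiv.addRight h)]
      apply Finset.sum_congr rfl
      intro c _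
      rw [Equiv.coe_addRight, AddChar.map_add_eq_mul]
    rw [h1, ← Finset.sum_sub_distrib]
    refine (norm_sum_le _ _).trans (le_trans (Finset.sum_le_sum fun c _ => ?_) (hreg h hh))
    have h2 : ((w (c + h) : ℂ) * χ (c + h + s)) * (ψ c * ψ h) -
        ((w c : ℂ) * χ (c + h + s)) * (ψ c * ψ h) =
        ((w (c + h) - w c : ℝ) : ℂ) * (χ (c + h + s) * (ψ c * ψ h)) := by
      push_cast; ring
    rw [h2, norm_mul, norm_mul, norm_mul, hψ, hψ, Complex.norm_real, Real.norm_eq_abs]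
    calc |w (c + h) - w c| * (‖χ (c + h + s)‖ * (1 * 1)) ≤ |w (c + h) - w c| * (1 * (1 * 1)) :=
          mul_le_mul_of_nonneg_left (mul_le_mul_of_nonneg_right (hχ _) (by norm_num))
            (abs_nonneg _)
      _ = |w (c + h) - w c| := by ring
  -- the main term
  have hmain : ‖∑ x ∈ X, ∑ y ∈ Finset.Icc 1 T,
      ∑ c : ZMod p, ((w c : ℂ) * χ (c + (y : ZMod p) * x + s)) * (ψ c * ψ ((y : ZMod p) * x))‖ ≤
      ∑ x ∈ X, ∑ c ∈ Z 1, Ψ ((c + s) / x) := by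
    refine (norm_sum_le _ _).trans (Finset.sum_le_sum fun x hx => ?_)
    have hx0 : x ≠ 0 := fun h => hX0 (h ▸ hx)
    rw [Finset.sum_comm]
    have h1 : ∀ c : ZMod p, ∑ y ∈ Finset.Icc 1 T,
        ((w c : ℂ) * χ (c + (y : ZMod p) * x + s)) * (ψ c * ψ ((y : ZMod p) * x)) =
        ((w c : ℂ) * (ψ c * χ x)) *
          ∑ y ∈ Finset.Icc 1 T, χ ((c + s) / x + (y : ZMod p)) * (ψ x) ^ y := by
      intro c
      rw [Finset.mul_sum]
      apply Finset.sum_congr rfl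
      intro y _
      have h2 : c + (y : ZMod p) * x + s = x * ((c + s) / x + (y : ZMod p)) := by
        field_simp
        ring
      have h3 : ψ ((y : ZMod p) * x) = (ψ x) ^ y := by
        rw [← nsmul_eq_mul, AddChar.map_nsmul_eq_pow]
      rw [h2, h3, map_mul]
      ring
    have h4 : ∀ c : ZMod p, ‖∑ y ∈ Finset.Icc 1 T,
        ((w c : ℂ) * χ (c + (y : ZMod p) * x + s)) * (ψ c * ψ ((y : ZMod p) * x))‖ ≤
        if c ∈ Z 1 then Ψ ((c + s) / x) else 0 := by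
      intro c
      rw [h1 c, norm_mul, norm_mul, norm_mul, hψ, Complex.norm_real]
      split_ifs with hc
      · have h5 : ‖w c‖ ≤ 1 := by
          rw [Real.norm_of_nonneg (hw c).1]; exact (hw c).2
        have h6 : ‖w c‖ * (1 * ‖χ x‖) ≤ 1 := by
          calc ‖w c‖ * (1 * ‖χ x‖) ≤ 1 * (1 * 1) :=
                mul_le_mul h5 (mul_le_mul_of_nonneg_left (hχ x) zero_le_one)
                  (mul_nonneg zero_le_one (norm_nonneg _)) zero_le_one
            _ = 1 := by ring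
        calc ‖w c‖ * (1 * ‖χ x‖) *
              ‖∑ y ∈ Finset.Icc 1 T, χ ((c + s) / x + (y : ZMod p)) * (ψ x) ^ y‖
            ≤ 1 * Ψ ((c + s) / x) :=
              mul_le_mul h6 (hΨ _ _ (hψ x)) (norm_nonneg _) zero_le_one
          _ = Ψ ((c + s) / x) := one_mul _
      · have h5 : w c = 0 := by
          by_contra h
          exact hc (hsupp c h)
        rw [h5, norm_zero, zero_mul, zero_mul]
    calc ‖∑ c : ZMod p, ∑ y ∈ Finset.Icc 1 T,
          ((w c : ℂ) * χ (c + (y : ZMod p) * x + s)) * (ψ c * ψ ((y : ZMod p) * x))‖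
        ≤ ∑ c : ZMod p, ‖∑ y ∈ Finset.Icc 1 T,
          ((w c : ℂ) * χ (c + (y : ZMod p) * x + s)) * (ψ c * ψ ((y : ZMod p) * x))‖ :=
          norm_sum_le _ _
      _ ≤ ∑ c : ZMod p, if c ∈ Z 1 then Ψ ((c + s) / x) else 0 :=
          Finset.sum_le_sum fun c _ => h4 c
      _ = ∑ c ∈ Z 1, Ψ ((c + s) / x) := by
          rw [← Finset.sum_filter]
          congr 1
          ext c
          rw [Finset.mem_filter]
          exact ⟨fun h => h.2, fun h => ⟨Finset.mem_univ _, h⟩⟩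
  -- averaging
  have hcX : (0 : ℝ) < (X.card : ℝ) := by exact_mod_cast Finset.card_pos.2 hX
  have hcT : (0 : ℝ) < (T : ℝ) := by exact_mod_cast hT
  have hsum : ((X.card : ℂ) * (T : ℂ)) * S = ∑ x ∈ X, ∑ y ∈ Finset.Icc 1 T, S := by
    rw [Finset.sum_const, Finset.sum_const, Nat.card_Icc, Nat.add_sub_cancel, nsmul_eq_mul,
      nsmul_eq_mul]
    ring
  have hdiff : ‖((X.card : ℂ) * (T : ℂ)) * S - ∑ x ∈ X, ∑ y ∈ Finset.Icc 1 T,
      ∑ c : ZMod p, ((w c : ℂ) * χ (c + (y : ZMod p) * x + s)) * (ψ c * ψ ((y : ZMod p) * x))‖ ≤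
      (X.card : ℝ) * (T : ℝ) * (16 * η * ((Z 1).card : ℝ)) := by
    rw [hsum, ← Finset.sum_sub_distrib]
    calc ‖∑ x ∈ X, (∑ y ∈ Finset.Icc 1 T, S - ∑ y ∈ Finset.Icc 1 T, ∑ c : ZMod p,
          ((w c : ℂ) * χ (c + (y : ZMod p) * x + s)) * (ψ c * ψ ((y : ZMod p) * x)))‖
        ≤ ∑ x ∈ X, ‖∑ y ∈ Finset.Icc 1 T, S - ∑ y ∈ Finset.Icc 1 T, ∑ c : ZMod p,
          ((w c : ℂ) * χ (c + (y : ZMod p) * x + s)) * (ψ c * ψ ((y : ZMod p) * x))‖ :=
          norm_sum_le _ _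
      _ ≤ ∑ x ∈ X, ∑ y ∈ Finset.Icc 1 T, 16 * η * ((Z 1).card : ℝ) := by
          refine Finset.sum_le_sum fun x hx => ?_
          rw [← Finset.sum_sub_distrib]
          exact (norm_sum_le _ _).trans
            (Finset.sum_le_sum fun y hy => hshift _ (hXT x hx y hy))
      _ = (X.card : ℝ) * (T : ℝ) * (16 * η * ((Z 1).card : ℝ)) := by
          rw [Finset.sum_const, Finset.sum_const, Nat.card_Icc, Nat.add_sub_cancel, nsmul_eq_mul,
            nsmul_eq_mul]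
          ring
  have hfin : (X.card : ℝ) * (T : ℝ) * ‖S‖ ≤ (∑ x ∈ X, ∑ c ∈ Z 1, Ψ ((c + s) / x)) +
      (X.card : ℝ) * (T : ℝ) * (16 * η * ((Z 1).card : ℝ)) := by
    have h1 : ‖((X.card : ℂ) * (T : ℂ)) * S‖ = (X.card : ℝ) * (T : ℝ) * ‖S‖ := by
      rw [norm_mul, norm_mul, Complex.norm_natCast, Complex.norm_natCast]
    rw [← h1]
    have h2 := norm_sub_norm_le (((X.card : ℂ) * (T : ℂ)) * S) (∑ x ∈ X, ∑ y ∈ Finset.Icc 1 T,
      ∑ c : ZMod p, ((w c : ℂ) * χ (c + (y : ZMod p) * x + s)) * (ψ c * ψ ((y : ZMod p) * x)))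
    linarith
  have hpos : (0 : ℝ) < (X.card : ℝ) * (T : ℝ) := mul_pos hcX hcT
  have h3 : (X.card : ℝ) * (T : ℝ) * ‖S‖ ≤ (X.card : ℝ) * (T : ℝ) *
      ((∑ x ∈ X, ∑ c ∈ Z 1, Ψ ((c + s) / x)) / ((X.card : ℝ) * (T : ℝ)) +
        16 * η * ((Z 1).card : ℝ)) := by
    rw [mul_add, mul_div_cancel₀ _ hpos.ne']
    exact hfin
  exact le_of_mul_le_mul_left h3 hpos

end Pool.Agent.helper85.PG
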