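import Pool.Agent.helper85.PG.Basic
import Pool.Agent.helper85.PG.Spec5
import Pool.Agent.helper34.PG.LSM

set_option autoImplicit false

namespace Pool.Agent.helper85.PG

open Filter Topology

section
variable {p : ℕ} [Fact p.Prime]

theorem CTS_rr_mono {S T : Finset (ZMod p)} (h : S ⊆ T) (ρ : ZMod p) : rr S ρ ≤ rr T ρ := by
  unfold rr
  refine Finset.card_le_card fun y hy => ?_
  rw [Finset.mem_filter] at hy ⊢
  exact ⟨h hy.1, h hy.2⟩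

theorem CTS_gg_le (P B : Finset (ZMod p)) (ρ : ZMod p) : gg P B ρ ≤ B.card := by
  unfold gg
  exact Finset.sup_le fun t _ => Finset.card_filter_le _ _

theorem CTS_units (M : Finset (ZMod p)ˣ) (S : Finset (ZMod p)) (hM : ∀ m ∈ M, (m : ZMod p) ∈ S)
    (F : ZMod p → ℝ) (hF : ∀ ρ, 0 ≤ F ρ) :
    ∑ m ∈ M, ∑ m' ∈ M, F ((m : ZMod p) / (m' : ZMod p)) ≤
      ∑ x ∈ S.erase 0, ∑ x' ∈ S.erase 0, F (x / x') := by
  have hinj : Set.InjOn (fun m : (ZMod p)ˣ => (m : ZMod p)) M := fun _ _ _ _ h => Units.ext h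
  have hsub : M.image (fun m : (ZMod p)ˣ => (m : ZMod p)) ⊆ S.erase 0 := by
    intro x hx
    obtain ⟨m, hm, rfl⟩ := Finset.mem_image.1 hx
    exact Finset.mem_erase.2 ⟨m.ne_zero, hM m hm⟩
  have h1 : ∀ G : ZMod p → ℝ, (∀ x, 0 ≤ G x) →
      ∑ m ∈ M, G (m : ZMod p) ≤ ∑ x ∈ S.erase 0, G x := by
    intro G hG
    rw [← Finset.sum_image (f := G) hinj]
    exact Finset.sum_le_sum_of_subset_of_nonneg hsub fun x _ _ => hG x
  calc ∑ m ∈ M, ∑ m' ∈ M, F ((m : ZMod p) / (m' : ZMod p))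
      ≤ ∑ m ∈ M, ∑ x' ∈ S.erase 0, F ((m : ZMod p) / x') :=
        Finset.sum_le_sum fun m _ => h1 (fun x' => F ((m : ZMod p) / x')) fun x' => hF _
    _ ≤ ∑ x ∈ S.erase 0, ∑ x' ∈ S.erase 0, F (x / x') :=
        h1 (fun x => ∑ x' ∈ S.erase 0, F (x / x')) fun x => Finset.sum_nonneg fun _ _ => hF _

/-- the dyadic sum -/
theorem CTS_dyadic (ζ : ℝ) (N b : ℝ) (P B Q : Finset (ZMod p))
    (hL : ∀ L : ℝ, 2 ≤ L → ∀ Y : Finset (ZMod p),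
      (∀ ρ ∈ Y, ρ ≠ 0 ∧ L ≤ (rr P ρ : ℝ) ∧ b ≤ (gg Q B ρ : ℝ)) →
      (Y.card : ℝ) ≤ (p : ℝ) ^ (-ζ) * (N / L) ^ 2) (Y : Finset (ZMod p))
    (hY : ∀ ρ ∈ Y, ρ ≠ 0 ∧ 2 ≤ rr P ρ ∧ b ≤ (gg Q B ρ : ℝ)) :
    ∑ ρ ∈ Y, (rr P ρ : ℝ) ^ 2 ≤
      (4 * ((Nat.log 2 p : ℝ) + 1)) * ((p : ℝ) ^ (-ζ) * N ^ 2) := by
  have hmaps : ∀ ρ ∈ Y, Nat.log 2 (rr P ρ) ∈ Finset.range (Nat.log 2 p + 1) := by
    intro ρ _
    rw [Finset.mem_range]
    exact Nat.lt_succ_of_le (Nat.log_mono_right (LSM_rr_le _ _))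
  have hpos : (0 : ℝ) ≤ (p : ℝ) ^ (-ζ) * N ^ 2 :=
    mul_nonneg (Real.rpow_nonneg (Nat.cast_nonneg _) _) (sq_nonneg _)
  rw [← Finset.sum_fiberwise_of_maps_to hmaps]
  have hcls : ∀ i ∈ Finset.range (Nat.log 2 p + 1),
      ∑ ρ ∈ Y.filter (fun ρ => Nat.log 2 (rr P ρ) = i), (rr P ρ : ℝ) ^ 2 ≤
        4 * ((p : ℝ) ^ (-ζ) * N ^ 2) := by
    intro i _
    rcases Nat.eq_zero_or_pos i with hi | hi
    · have hemp : Y.filter (fun ρ => Nat.log 2 (rr P ρ) = i) = ∅ := by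
        rw [Finset.filter_eq_empty_iff]
        intro ρ hρ hlog
        have h2 := (hY ρ hρ).2.1
        have h3 : 1 ≤ Nat.log 2 (rr P ρ) := by
          have h4 : Nat.log 2 2 ≤ Nat.log 2 (rr P ρ) := Nat.log_mono_right h2
          have h5 : Nat.log 2 2 = 1 := by norm_num
          omega
        omega
      rw [hemp, Finset.sum_empty]
      positivity
    · have h2i : (2 : ℝ) ≤ 2 ^ i := by
        calc (2 : ℝ) = 2 ^ 1 := by norm_num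
          _ ≤ 2 ^ i := pow_le_pow_right₀ (by norm_num) hi
      have hcard := hL (2 ^ i) h2i (Y.filter (fun ρ => Nat.log 2 (rr P ρ) = i)) (by
        intro ρ hρ
        rw [Finset.mem_filter] at hρ
        obtain ⟨h0, h2, hb⟩ := hY ρ hρ.1
        refine ⟨h0, ?_, hb⟩
        have h3 : 2 ^ Nat.log 2 (rr P ρ) ≤ rr P ρ := Nat.pow_log_le_self 2 (by omega)
        rw [hρ.2] at h3
        exact_mod_cast h3)
      have hterm : ∀ ρ ∈ Y.filter (fun ρ => Nat.log 2 (rr P ρ) = i),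
          (rr P ρ : ℝ) ^ 2 ≤ 4 * (2 ^ i) ^ 2 := by
        intro ρ hρ
        rw [Finset.mem_filter] at hρ
        have h3 : rr P ρ < 2 ^ (Nat.log 2 (rr P ρ) + 1) :=
          Nat.lt_pow_succ_log_self one_lt_two _
        rw [hρ.2] at h3
        have h4 : (rr P ρ : ℝ) ≤ 2 * 2 ^ i := by
          have : (rr P ρ : ℝ) < 2 ^ (i + 1) := by exact_mod_cast h3
          rw [pow_succ] at this
          linarith
        have h5 : (0 : ℝ) ≤ (rr P ρ : ℝ) := Nat.cast_nonneg _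
        nlinarith
      calc ∑ ρ ∈ Y.filter (fun ρ => Nat.log 2 (rr P ρ) = i), (rr P ρ : ℝ) ^ 2
          ≤ ((Y.filter (fun ρ => Nat.log 2 (rr P ρ) = i)).card : ℝ) * (4 * (2 ^ i) ^ 2) := by
            rw [← nsmul_eq_mul]
            exact Finset.sum_le_card_nsmul _ _ _ hterm
        _ ≤ ((p : ℝ) ^ (-ζ) * (N / 2 ^ i) ^ 2) * (4 * (2 ^ i) ^ 2) :=
            mul_le_mul_of_nonneg_right hcard (by positivity)
        _ = 4 * ((p : ℝ) ^ (-ζ) * N ^ 2) := by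
            field_simp
  calc ∑ i ∈ Finset.range (Nat.log 2 p + 1),
        ∑ ρ ∈ Y.filter (fun ρ => Nat.log 2 (rr P ρ) = i), (rr P ρ : ℝ) ^ 2
      ≤ ∑ i ∈ Finset.range (Nat.log 2 p + 1), 4 * ((p : ℝ) ^ (-ζ) * N ^ 2) :=
        Finset.sum_le_sum hcls
    _ = (4 * ((Nat.log 2 p : ℝ) + 1)) * ((p : ℝ) ^ (-ζ) * N ^ 2) := by
        rw [Finset.sum_const, Finset.card_range, nsmul_eq_mul]
        push_cast
        ring

end

theorem CTS (hPKC : PKC_stmt) (hLSM : LSM_stmt) (hCNT : CNT_stmt) (hLVG : LVG_stmt)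
    (hCOG : COG_stmt) : CTS_stmt := by
  classical
  intro d σ hσ
  obtain ⟨ζ, p₁, hζ, hLV⟩ := hLVG d σ hσ
  have hκ : 0 < ζ / 4 := by positivity
  obtain ⟨CL, p₂, hCL, hLS⟩ := hLSM d (ζ / 4) hκ
  obtain ⟨x₀, hx₀⟩ := eventually_atTop.1 (LSM_ev ((81 : ℝ) ^ d) (ζ / 4) hκ)
  refine ⟨ζ / 2, max (max p₁ p₂) (max ⌈x₀⌉₊ ⌈(CL * 81 ^ d) ^ 3⌉₊), by positivity, ?_⟩
  intro p _ hp P hP hN3 B hNB hsp M hM
  have hp1 : p₁ ≤ p := le_trans (le_trans (le_max_left _ _) (le_max_left _ _)) hp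
  have hp2 : p₂ ≤ p := le_trans (le_trans (le_max_right _ _) (le_max_left _ _)) hp
  have hp3 : ⌈x₀⌉₊ ≤ p := le_trans (le_trans (le_max_left _ _) (le_max_right _ _)) hp
  have hp4 : ⌈(CL * 81 ^ d) ^ 3⌉₊ ≤ p :=
    le_trans (le_trans (le_max_right _ _) (le_max_right _ _)) hp
  have hpp : p.Prime := Fact.out
  have hp0 : (0 : ℝ) < p := by exact_mod_cast hpp.pos
  have hpge1 : (1 : ℝ) ≤ p := by exact_mod_cast hpp.one_lt.le
  have hev : 4 * (81 : ℝ) ^ d * (Real.log p / Real.log 2 + 1) ≤ (p : ℝ) ^ (ζ / 4) := by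
    apply hx₀
    exact (Nat.le_ceil x₀).trans (by exact_mod_cast hp3)
  have hpC : (CL * 81 ^ d) ^ 3 ≤ (p : ℝ) := (Nat.le_ceil _).trans (by exact_mod_cast hp4)
  set N : ℝ := ((P 1).card : ℝ) with hN
  set b : ℝ := (B.card : ℝ) with hb
  have hN0 : 0 ≤ N := Nat.cast_nonneg _
  have hb0 : 0 ≤ b := Nat.cast_nonneg _
  have h81 : (1 : ℝ) ≤ 81 ^ d := one_le_pow₀ (by norm_num)
  -- the size of `P 4`
  have hP4 : ((P 4).card : ℝ) ≤ 9 ^ d * N := by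
    have h := (hPKC.2.2 p d P hP 4 1 (by norm_num) one_pos).1
    have h9 : (1 + 2 * 4 / 1 : ℝ) = 9 := by norm_num
    rw [h9] at h
    exact h
  have hP4sq : ((P 4).card : ℝ) ^ 2 ≤ 81 ^ d * N ^ 2 := by
    calc ((P 4).card : ℝ) ^ 2 ≤ (9 ^ d * N) ^ 2 := pow_le_pow_left₀ (Nat.cast_nonneg _) hP4 2
      _ = 81 ^ d * N ^ 2 := by
        rw [mul_pow, ← pow_mul, mul_comm d 2, pow_mul]
        norm_num
  have hLamp : CL * ((P 4).card : ℝ) ^ 2 ≤ p := by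
    have hD0 : 0 < CL * 81 ^ d := by positivity
    calc CL * ((P 4).card : ℝ) ^ 2 ≤ CL * (81 ^ d * N ^ 2) :=
          mul_le_mul_of_nonneg_left hP4sq (by linarith)
      _ = (CL * 81 ^ d) * N ^ 2 := by ring
      _ ≤ p := by
        rcases le_total (CL * 81 ^ d) N with h | h
        · calc (CL * 81 ^ d) * N ^ 2 ≤ N * N ^ 2 := mul_le_mul_of_nonneg_right h (sq_nonneg _)
            _ = N ^ 3 := by ring
            _ ≤ p := hN3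
        · calc (CL * 81 ^ d) * N ^ 2 ≤ (CL * 81 ^ d) * (CL * 81 ^ d) ^ 2 :=
              mul_le_mul_of_nonneg_left (pow_le_pow_left₀ hN0 h 2) hD0.le
            _ = (CL * 81 ^ d) ^ 3 := by ring
            _ ≤ p := hpC
  -- collisions
  have hcol := hCOG p M (P 2) B (P 4) (fun x hx => hP.neg_mem hx) (fun x hx x' hx' => by
    have h := hP.sub_mem hx hx'
    have h4 : (2 + 2 : ℝ) = 4 := by norm_num
    rw [h4] at h
    exact h)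
  set F : ZMod p → ℝ := fun ρ => (rr (P 4) ρ : ℝ) * (b ^ 2 * (gg (P 2) B ρ : ℝ)) with hF
  have hF0 : ∀ ρ, 0 ≤ F ρ := fun ρ => by positivity
  have hun := CTS_units M (P 1) hM F hF0
  obtain ⟨hrr1, hcn, -⟩ := hCNT p (P 1) (hP.zero_mem zero_le_one)
  rw [hcn F] at hun
  -- restriction to `rr ≥ 2`
  have hstep1 : ∑ ρ ∈ Finset.univ.erase (0 : ZMod p), ((rr (P 1) ρ : ℝ) - 1) * F ρ ≤
      b ^ 2 * ∑ ρ ∈ (Finset.univ.erase (0 : ZMod p)).filter (fun ρ => 2 ≤ rr (P 4) ρ),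
        (rr (P 4) ρ : ℝ) ^ 2 * (gg (P 2) B ρ : ℝ) := by
    rw [Finset.sum_filter, Finset.mul_sum]
    refine Finset.sum_le_sum fun ρ _ => ?_
    have hmono : rr (P 1) ρ ≤ rr (P 4) ρ := CTS_rr_mono (hP.mono (by norm_num)) ρ
    by_cases h2 : 2 ≤ rr (P 4) ρ
    · rw [if_pos h2]
      have h3 : (rr (P 1) ρ : ℝ) - 1 ≤ (rr (P 4) ρ : ℝ) := by
        have : (rr (P 1) ρ : ℝ) ≤ (rr (P 4) ρ : ℝ) := by exact_mod_cast hmono
        linarith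
      calc ((rr (P 1) ρ : ℝ) - 1) * F ρ ≤ (rr (P 4) ρ : ℝ) * F ρ :=
            mul_le_mul_of_nonneg_right h3 (hF0 ρ)
        _ = b ^ 2 * ((rr (P 4) ρ : ℝ) ^ 2 * (gg (P 2) B ρ : ℝ)) := by
            rw [hF]; ring
    · rw [if_neg h2, mul_zero]
      have h3 : (rr (P 1) ρ : ℝ) ≤ 1 := by
        have : rr (P 1) ρ ≤ 1 := by omega
        exact_mod_cast this
      exact mul_nonpos_of_nonpos_of_nonneg (by linarith) (hF0 ρ)
  set Λ : Finset (ZMod p) :=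
    (Finset.univ.erase (0 : ZMod p)).filter (fun ρ => 2 ≤ rr (P 4) ρ) with hΛ
  set q : ℝ := (p : ℝ) ^ (-ζ) with hq
  have hq0 : 0 ≤ q := Real.rpow_nonneg hp0.le _
  have hstep2 : ∑ ρ ∈ Λ, (rr (P 4) ρ : ℝ) ^ 2 * (gg (P 2) B ρ : ℝ) ≤
      q * b * ∑ ρ ∈ Λ, (rr (P 4) ρ : ℝ) ^ 2 +
      b * ∑ ρ ∈ Λ.filter (fun ρ => q * b ≤ (gg (P 2) B ρ : ℝ)), (rr (P 4) ρ : ℝ) ^ 2 := by
    have e : ∑ ρ ∈ Λ.filter (fun ρ => q * b ≤ (gg (P 2) B ρ : ℝ)), (rr (P 4) ρ : ℝ) ^ 2 =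
        ∑ ρ ∈ Λ, if q * b ≤ (gg (P 2) B ρ : ℝ) then (rr (P 4) ρ : ℝ) ^ 2 else 0 :=
      Finset.sum_filter _ _
    rw [e, Finset.mul_sum, Finset.mul_sum, ← Finset.sum_add_distrib]
    refine Finset.sum_le_sum fun ρ _ => ?_
    have hr0 : (0 : ℝ) ≤ (rr (P 4) ρ : ℝ) ^ 2 := sq_nonneg _
    by_cases hg : q * b ≤ (gg (P 2) B ρ : ℝ)
    · rw [if_pos hg]
      have hgb : (gg (P 2) B ρ : ℝ) ≤ b := Nat.cast_le.2 (CTS_gg_le (P 2) B ρ)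
      have h1 : (rr (P 4) ρ : ℝ) ^ 2 * (gg (P 2) B ρ : ℝ) ≤ (rr (P 4) ρ : ℝ) ^ 2 * b :=
        mul_le_mul_of_nonneg_left hgb hr0
      have h2 : 0 ≤ q * b * (rr (P 4) ρ : ℝ) ^ 2 := by positivity
      linarith
    · rw [if_neg hg, mul_zero, add_zero]
      have h1 : (rr (P 4) ρ : ℝ) ^ 2 * (gg (P 2) B ρ : ℝ) ≤ (rr (P 4) ρ : ℝ) ^ 2 * (q * b) :=
        mul_le_mul_of_nonneg_left (not_le.1 hg).le hr0
      linarith
  have hstep3 : ∑ ρ ∈ Λ, (rr (P 4) ρ : ℝ) ^ 2 ≤ (p : ℝ) ^ (ζ / 4) * (81 ^ d * N ^ 2) := by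
    have h1 := hLS p hp2 P hP 4 (by norm_num)
    have h2 : ∑ ρ ∈ Λ, (rr (P 4) ρ : ℝ) ^ 2 ≤ ∑ ρ ∈ Lam CL (P 4), (rr (P 4) ρ : ℝ) ^ 2 := by
      refine Finset.sum_le_sum_of_subset_of_nonneg ?_ fun ρ _ _ => sq_nonneg _
      intro ρ hρ
      rw [hΛ, Finset.mem_filter, Finset.mem_erase] at hρ
      refine (mem_Lam _ _ _).2 ⟨hρ.1.1, hρ.2, hLamp.trans ?_⟩
      have h3 : (1 : ℝ) ≤ (rr (P 4) ρ : ℝ) := by
        have : 1 ≤ rr (P 4) ρ := by omega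
        exact_mod_cast this
      nlinarith
    refine h2.trans (h1.trans ?_)
    exact mul_le_mul_of_nonneg_left hP4sq (Real.rpow_nonneg hp0.le _)
  have hNζ : N ≤ (p : ℝ) ^ ζ * b := by
    refine hNB.trans ?_
    exact mul_le_mul_of_nonneg_right
      (Real.rpow_le_rpow_of_exponent_le hpge1 (by linarith)) hb0
  have hstep4 := CTS_dyadic ζ N (q * b) (P 4) B (P 2)
    (fun L hL Y hY => hLV p hp1 P hP hN3 B hNζ hsp L hL Y hY)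
    (Λ.filter (fun ρ => q * b ≤ (gg (P 2) B ρ : ℝ))) (by
      intro ρ hρ
      rw [Finset.mem_filter, hΛ, Finset.mem_filter, Finset.mem_erase] at hρ
      exact ⟨hρ.1.1.1, hρ.1.2, hρ.2⟩)
  -- numbers
  set X : ℝ := (p : ℝ) ^ (ζ / 4) with hX
  have hXpos : 0 < X := Real.rpow_pos_of_pos hp0 _
  have hlog0 : 0 ≤ Real.log p / Real.log 2 :=
    div_nonneg (Real.log_nonneg hpge1) (Real.log_nonneg (by norm_num))
  have hX1 : 4 * (81 : ℝ) ^ d ≤ X := by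
    refine le_trans ?_ hev
    have : 4 * (81 : ℝ) ^ d * 1 ≤ 4 * (81 : ℝ) ^ d * (Real.log p / Real.log 2 + 1) :=
      mul_le_mul_of_nonneg_left (by linarith) (by positivity)
    linarith
  have hX2 : 4 * ((Nat.log 2 p : ℝ) + 1) ≤ X := by
    refine le_trans ?_ hev
    have h1 := LSM_log p hpp.pos
    have h2 : (Nat.log 2 p : ℝ) + 1 ≤ Real.log p / Real.log 2 + 1 := by linarith
    have h3 : (0 : ℝ) ≤ (Nat.log 2 p : ℝ) + 1 := by positivity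
    nlinarith
  have hqX : q * X ^ 2 = (p : ℝ) ^ (-(ζ / 2)) := by
    rw [hq, hX, ← Real.rpow_natCast, ← Real.rpow_mul hp0.le, ← Real.rpow_add hp0]
    congr 1
    push_cast
    ring
  have hfin : X * 81 ^ d + 4 * ((Nat.log 2 p : ℝ) + 1) ≤ X ^ 2 := by
    nlinarith
  have hN2 : 0 ≤ N ^ 2 * b ^ 3 := by positivity
  calc ∑ z : ZMod p × ZMod p,
        (∑ t ∈ M, (Pool.Agent.helper46.PY.cnt (P 2) B (t • z) : ℝ)) ^ 2
      ≤ ∑ m ∈ M, ∑ m' ∈ M, F ((m : ZMod p) / (m' : ZMod p)) := hcol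
    _ ≤ b ^ 2 * ∑ ρ ∈ Λ, (rr (P 4) ρ : ℝ) ^ 2 * (gg (P 2) B ρ : ℝ) := hun.trans hstep1
    _ ≤ b ^ 2 * (q * b * (X * (81 ^ d * N ^ 2)) +
          b * ((4 * ((Nat.log 2 p : ℝ) + 1)) * (q * N ^ 2))) := by
        refine mul_le_mul_of_nonneg_left (hstep2.trans ?_) (sq_nonneg _)
        exact add_le_add (mul_le_mul_of_nonneg_left hstep3 (by positivity))
          (mul_le_mul_of_nonneg_left hstep4 hb0)
    _ = q * (X * 81 ^ d + 4 * ((Nat.log 2 p : ℝ) + 1)) * (N ^ 2 * b ^ 3) := by ring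
    _ ≤ q * X ^ 2 * (N ^ 2 * b ^ 3) :=
        mul_le_mul_of_nonneg_right (mul_le_mul_of_nonneg_left hfin hq0) hN2
    _ = (p : ℝ) ^ (-(ζ / 2)) * (N ^ 2 * b ^ 3) := by rw [hqX]

end Pool.Agent.helper85.PG
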