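import Mathlib
import Pool.Agent.helper85.PG.Spec
import Pool.Agent.helper85.PG.Basic

/-!
# LV1: level sets, small scales
-/

set_option autoImplicit false

namespace Pool.Agent.helper85.PG

open Module Filter Topology

private theorem lv1_rr_mono {p : ℕ} [Fact p.Prime] {S S' : Finset (ZMod p)} (h : S ⊆ S')
    (ρ : ZMod p) : rr S ρ ≤ rr S' ρ := by
  unfold rr
  apply Finset.card_le_card
  intro y hy
  rw [Finset.mem_filter] at hy ⊢
  exact ⟨h hy.1, h hy.2⟩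

/-- `rr` loses at most a factor `25^D` when the scale is halved -/
private theorem lv1_half (hPKC : PKC_stmt) (hT1 : T1_stmt) (p : ℕ) [Fact p.Prime] (E : Type)
    [NormedAddCommGroup E] [NormedSpace ℝ E] [FiniteDimensional ℝ E] (G : AddSubgroup (E × ZMod p))
    (D : ℕ) (hD : finrank ℝ E = D) (hFB : FB G) (l : ℝ) (hl : 0 < l) (ρ : ZMod p) (hρ : ρ ≠ 0) :
    (rr (PP G l) ρ : ℝ) ≤ 25 ^ D * (rr (PP G (l / 2)) ρ : ℝ) := by
  obtain ⟨L, hL1, hL2, _⟩ := hT1.2.2 p E G ρ hFB hρ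
  have hdim : finrank ℝ (E × E) ≤ 2 * D := by
    rw [Module.finrank_prod, hD]; omega
  have hsys : IsSys p (2 * D) (fun R => PP L R) :=
    ⟨E × E, inferInstance, inferInstance, L, inferInstance, hdim, hL1, fun R => rfl⟩
  have h := (hPKC.2.2 p (2 * D) _ hsys l (l / 2) hl.le (half_pos hl)).1
  have h1 : (1 + 2 * l / (l / 2)) = 5 := by
    have hne : l ≠ 0 := hl.ne'
    field_simp
    norm_num
  have h2 : ((5 : ℝ) ^ (2 * D)) = 25 ^ D := by
    rw [pow_mul]; norm_num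
  rw [h1, h2] at h
  have h3 : ((PP L l).card : ℝ) ≤ 25 ^ D * ((PP L (l / 2)).card : ℝ) := h
  rw [hL2, hL2] at h3
  exact h3

theorem LV1 (hPKC : PKC_stmt) (hT1 : T1_stmt) (hSUB : SUB_stmt) : LV1_stmt := by
  intro d K C' hK hC' hLV
  obtain ⟨c2, hc2⟩ : ∃ c2 : ℝ, c2 = (6 * (((d + 1 : ℕ) : ℝ) + 3)) ^ (d + 1) := ⟨_, rfl⟩
  obtain ⟨c3, hc3⟩ : ∃ c3 : ℝ, c3 = 25 ^ (d + 1) * c2 := ⟨_, rfl⟩
  have hc2' : 1 ≤ c2 := by
    rw [hc2]
    apply one_le_pow₀
    have : (0 : ℝ) ≤ ((d + 1 : ℕ) : ℝ) := Nat.cast_nonneg _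
    linarith
  have h25 : (1 : ℝ) ≤ 25 ^ (d + 1) := one_le_pow₀ (by norm_num)
  have hc3' : 1 ≤ c3 := by
    rw [hc3]
    calc (1 : ℝ) = 1 * 1 := by norm_num
      _ ≤ 25 ^ (d + 1) * c2 := mul_le_mul h25 hc2' zero_le_one (by linarith)
  have hc30 : 0 < c3 := by linarith
  have hsq : 1 ≤ c3 ^ 2 := one_le_pow₀ hc3'
  refine ⟨(C' + 1) * c3 ^ 2, by nlinarith, ?_⟩
  intro C hC p hp E _ _ _ G l hFB hdim hl hspan hprop M hM S hS
  have hCc : C' * c3 ≤ C := by
    refine le_trans ?_ hC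
    have : c3 ≤ c3 ^ 2 := by nlinarith
    nlinarith
  -- the scales
  obtain ⟨a, ha⟩ : ∃ a : ℕ → ℝ, a = fun i => l * (1 / 2) ^ i := ⟨_, rfl⟩
  have ha0 : a 0 = l := by rw [ha]; simp
  have has : ∀ i, a (i + 1) = a i / 2 := fun i => by rw [ha]; simp only [pow_succ]; ring
  have hap : ∀ i, 0 < a i := fun i => by rw [ha]; positivity
  have hanti : Antitone a := antitone_nat_of_succ_le fun i => by
    rw [has]; linarith [hap i]
  have hal : ∀ i, a i ≤ l := fun i => by rw [← ha0]; exact hanti (Nat.zero_le i)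
  have htend : Tendsto a atTop (𝓝 0) := by
    rw [ha]
    have h := (tendsto_pow_atTop_nhds_zero_of_lt_one (r := (1 / 2 : ℝ)) (by norm_num)
      (by norm_num)).const_mul l
    rw [mul_zero] at h
    exact h
  -- cardinalities
  have hPPs : ∀ i j, i ≤ j → PP G (a j) ⊆ PP G (a i) := fun i j hij => PP_mono G (hanti hij)
  have hfpos : ∀ i, (0 : ℝ) < ((PP G (a i)).card : ℝ) := fun i => by
    have : 0 < (PP G (a i)).card := Finset.card_pos.2 ⟨0, zero_mem_PP G (hap i).le⟩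
    exact_mod_cast this
  have hfm : ∀ i j, i ≤ j → ((PP G (a j)).card : ℝ) ≤ ((PP G (a i)).card : ℝ) := fun i j hij => by
    exact_mod_cast Finset.card_le_card (hPPs i j hij)
  obtain ⟨f, hf⟩ : ∃ f : ℝ, f = ((PP G l).card : ℝ) := ⟨_, rfl⟩
  have hf0 : ((PP G (a 0)).card : ℝ) = f := by rw [ha0, hf]
  have hfp : 0 < f := by rw [← hf0]; exact hfpos 0
  have hfl : ∀ i, ((PP G (a i)).card : ℝ) ≤ f := fun i => by
    rw [← hf0]; exact hfm 0 i (Nat.zero_le i)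
  -- the index where the balls stop spanning
  have hex : ∃ k, ¬ Submodule.span ℝ (Prod.fst '' ball G (a k)) = ⊤ := by
    have hfin : (ball G l).Finite := hFB l
    have hev : ∀ᶠ k in atTop, ∀ z ∈ ball G l, z.1 ≠ 0 → a k < ‖z.1‖ := by
      rw [Filter.eventually_all_finite hfin]
      intro z hz
      by_cases hz0 : z.1 = 0
      · exact Filter.Eventually.of_forall fun k h => absurd hz0 h
      · have hpos : 0 < ‖z.1‖ := norm_pos_iff.2 hz0
        have := htend.eventually (gt_mem_nhds hpos)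
        filter_upwards [this] with k hk _ using hk
    obtain ⟨k, hk⟩ := hev.exists
    refine ⟨k, fun htop => ?_⟩
    have hbot : Submodule.span ℝ (Prod.fst '' ball G (a k)) = ⊥ := by
      rw [Submodule.span_eq_bot]
      rintro x ⟨z, hz, rfl⟩
      by_contra hne
      exact absurd hz.2 (not_le.2 (hk z ⟨hz.1, hz.2.trans (hal k)⟩ hne))
    rw [hbot] at htop
    have h1 : finrank ℝ (⊤ : Submodule ℝ E) = d + 1 := by rw [finrank_top, hdim]
    rw [← htop, finrank_bot] at h1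
    omega
  classical
  obtain ⟨N, hN1, hN2⟩ : ∃ N, (¬ Submodule.span ℝ (Prod.fst '' ball G (a N)) = ⊤) ∧
      ∀ i < N, Submodule.span ℝ (Prod.fst '' ball G (a i)) = ⊤ :=
    ⟨Nat.find hex, Nat.find_spec hex, fun i hi => not_not.1 (Nat.find_min hex hi)⟩
  have hN0 : N ≠ 0 := by
    rintro rfl
    exact hN1 (by rw [ha0]; exact hspan)
  -- elementary facts on the elements of `S`
  have hρ0 : ∀ ρ ∈ S, ρ ≠ 0 := fun ρ hρ => ((mem_Lam _ _ _).1 (hS ρ hρ).1).1
  have hρ2 : ∀ ρ ∈ S, 2 ≤ rr (PP G l) ρ := fun ρ hρ => ((mem_Lam _ _ _).1 (hS ρ hρ).1).2.1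
  have hρC : ∀ ρ ∈ S, C * f ^ 2 ≤ p * (rr (PP G l) ρ : ℝ) := fun ρ hρ => by
    rw [hf]; exact ((mem_Lam _ _ _).1 (hS ρ hρ).1).2.2
  have hρM : ∀ ρ ∈ S, M ≤ (rr (PP G l) ρ : ℝ) := fun ρ hρ => (hS ρ hρ).2.1
  have hkey : ∀ ρ ∈ S, ∀ i, i < N → ((PP G (a i)).card : ℝ) * (rr (PP G l) ρ : ℝ) ≤
      c3 * ((rr (PP G (a (i + 1))) ρ : ℝ) * f) := fun ρ hρ i hi => by
    have h1 := (hS ρ hρ).2.2 (a i) (hap i) (hal i) (hN2 i hi)
    rw [← hc2, ← hf] at h1
    have h2 := lv1_half hPKC hT1 p E G (d + 1) hdim hFB (a i) (hap i) ρ (hρ0 ρ hρ)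
    rw [← has] at h2
    calc ((PP G (a i)).card : ℝ) * (rr (PP G l) ρ : ℝ) ≤ c2 * ((rr (PP G (a i)) ρ : ℝ) * f) := h1
      _ ≤ c2 * ((25 ^ (d + 1) * (rr (PP G (a (i + 1))) ρ : ℝ)) * f) :=
        mul_le_mul_of_nonneg_left (mul_le_mul_of_nonneg_right h2 hfp.le) (by linarith)
      _ = c3 * ((rr (PP G (a (i + 1))) ρ : ℝ) * f) := by rw [hc3]; ring
  have hMne : M ≠ 0 := hM.ne'
  have hpR : (1 : ℝ) ≤ (p : ℝ) := by exact_mod_cast hp.out.one_lt.le
  have hpp : (1 : ℝ) ≤ (p : ℝ) ^ (4 / (K : ℝ)) :=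
    Real.one_le_rpow hpR (by positivity)
  obtain ⟨Q, hQ⟩ : ∃ Q : ℝ, Q = (p : ℝ) ^ (4 / (K : ℝ)) := ⟨_, rfl⟩
  rw [← hQ] at hpp ⊢
  -- first case
  have hcase1 : ((S.filter fun ρ => 2 ≤ rr (PP G (a N)) ρ).card : ℝ) ≤
      C' * Q * (c3 * f / M) ^ 2 := by
    obtain ⟨P', hP'1, hP'2⟩ := hSUB p E G d (a N)
      (Submodule.span ℝ (Prod.fst '' ball G (a N))) hFB hdim.le hN1
      (fun z hz => Submodule.subset_span ⟨z, hz, rfl⟩)
    have hfN := hfpos N
    obtain ⟨g, hg⟩ : ∃ g : ℝ, g = ((PP G (a N)).card : ℝ) := ⟨_, rfl⟩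
    rw [← hg] at hfN
    have hM' : 0 < M * g / (c3 * f) := by positivity
    have h := hLV p P' hP'1 (a N) (hap N) (M * g / (c3 * f)) hM'
    rw [hP'2, ← hg, ← hQ] at h
    have hval : g / (M * g / (c3 * f)) = c3 * f / M := by
      have h1 : g ≠ 0 := hfN.ne'
      have h2 : f ≠ 0 := hfp.ne'
      have h3 : c3 ≠ 0 := hc30.ne'
      field_simp
    rw [hval] at h
    refine le_trans ?_ h
    have hsub : (S.filter fun ρ => 2 ≤ rr (PP G (a N)) ρ) ⊆
        ((Lam C' (PP G (a N))).filter fun ρ => M * g / (c3 * f) ≤ (rr (PP G (a N)) ρ : ℝ)) := by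
      intro ρ hρ
      rw [Finset.mem_filter] at hρ
      obtain ⟨hρS, hρN⟩ := hρ
      have hk := hkey ρ hρS (N - 1) (by omega)
      have hN' : N - 1 + 1 = N := by omega
      rw [hN'] at hk
      have hgJ : g ≤ ((PP G (a (N - 1))).card : ℝ) := by
        rw [hg]; exact hfm (N - 1) N (by omega)
      have hr0 : (0 : ℝ) ≤ (rr (PP G l) ρ : ℝ) := Nat.cast_nonneg _
      have hk' : g * (rr (PP G l) ρ : ℝ) ≤ c3 * ((rr (PP G (a N)) ρ : ℝ) * f) :=
        le_trans (mul_le_mul_of_nonneg_right hgJ hr0) hk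
      have hgf : g ≤ f := by rw [hg]; exact hfl N
      rw [Finset.mem_filter]
      constructor
      · rw [mem_Lam]
        refine ⟨hρ0 ρ hρS, hρN, ?_⟩
        rw [← hg]
        have h1 := hρC ρ hρS
        have h2 : C * f ^ 2 * g ≤ p * (c3 * ((rr (PP G (a N)) ρ : ℝ) * f)) := by
          calc C * f ^ 2 * g ≤ (p * (rr (PP G l) ρ : ℝ)) * g :=
                mul_le_mul_of_nonneg_right h1 hfN.le
            _ = p * (g * (rr (PP G l) ρ : ℝ)) := by ring
            _ ≤ p * (c3 * ((rr (PP G (a N)) ρ : ℝ) * f)) :=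
                mul_le_mul_of_nonneg_left hk' (by linarith)
        have h3 : C * f * g ≤ c3 * (p * (rr (PP G (a N)) ρ : ℝ)) := by
          have h4 : f * (C * f * g) ≤ f * (c3 * (p * (rr (PP G (a N)) ρ : ℝ))) := by
            nlinarith
          exact le_of_mul_le_mul_left h4 hfp
        have hC0 : 0 ≤ C := by
          have : 0 ≤ C' * c3 := by positivity
          linarith
        have h5 : c3 * (C' * g ^ 2) ≤ c3 * (p * (rr (PP G (a N)) ρ : ℝ)) := by
          calc c3 * (C' * g ^ 2) = (C' * c3) * (g * g) := by ring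
            _ ≤ C * (f * g) :=
              mul_le_mul hCc (mul_le_mul_of_nonneg_right hgf hfN.le) (by positivity) hC0
            _ = C * f * g := by ring
            _ ≤ _ := h3
        exact le_of_mul_le_mul_left h5 hc30
      · rw [div_le_iff₀ (by positivity)]
        calc M * g ≤ (rr (PP G l) ρ : ℝ) * g := mul_le_mul_of_nonneg_right (hρM ρ hρS) hfN.le
          _ = g * (rr (PP G l) ρ : ℝ) := by ring
          _ ≤ c3 * ((rr (PP G (a N)) ρ : ℝ) * f) := hk'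
          _ = (rr (PP G (a N)) ρ : ℝ) * (c3 * f) := by ring
    have hcard := Finset.card_le_card hsub
    have hcard' : ((S.filter fun ρ => 2 ≤ rr (PP G (a N)) ρ).card : ℝ) ≤
        (((Lam C' (PP G (a N))).filter fun ρ =>
          M * g / (c3 * f) ≤ (rr (PP G (a N)) ρ : ℝ)).card : ℝ) := by
      exact_mod_cast hcard
    refine hcard'.trans (le_of_eq ?_)
    congr 1
  -- second case
  have hcase2 : ((S.filter fun ρ => ¬ 2 ≤ rr (PP G (a N)) ρ).card : ℝ) ≤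
      (c3 * f / M) ^ 2 := by
    -- every element has an index
    have hidx : ∀ ρ ∈ (S.filter fun ρ => ¬ 2 ≤ rr (PP G (a N)) ρ), ∃ i,
        2 ≤ rr (PP G (a i)) ρ ∧ ((PP G (a i)).card : ℝ) ≤ c3 * f / M := by
      intro ρ hρ
      rw [Finset.mem_filter] at hρ
      obtain ⟨hρS, hρN⟩ := hρ
      have hex2 : ∃ j, ¬ 2 ≤ rr (PP G (a j)) ρ := ⟨N, hρN⟩
      have hj1 := Nat.find_spec hex2
      have hjN : Nat.find hex2 ≤ N := Nat.find_min' hex2 hρN
      have hj0 : Nat.find hex2 ≠ 0 := by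
        intro h0
        rw [h0, ha0] at hj1
        exact hj1 (hρ2 ρ hρS)
      have hjm : 2 ≤ rr (PP G (a (Nat.find hex2 - 1))) ρ :=
        not_not.1 (Nat.find_min hex2 (m := Nat.find hex2 - 1) (by omega))
      refine ⟨Nat.find hex2 - 1, hjm, ?_⟩
      have hk := hkey ρ hρS (Nat.find hex2 - 1) (by omega)
      have hj' : Nat.find hex2 - 1 + 1 = Nat.find hex2 := by omega
      rw [hj'] at hk
      have hr1 : (rr (PP G (a (Nat.find hex2))) ρ : ℝ) ≤ 1 := by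
        have : rr (PP G (a (Nat.find hex2))) ρ ≤ 1 := by omega
        exact_mod_cast this
      rw [le_div_iff₀ hM]
      calc ((PP G (a (Nat.find hex2 - 1))).card : ℝ) * M
          ≤ ((PP G (a (Nat.find hex2 - 1))).card : ℝ) * (rr (PP G l) ρ : ℝ) :=
            mul_le_mul_of_nonneg_left (hρM ρ hρS) (hfpos _).le
        _ ≤ c3 * ((rr (PP G (a (Nat.find hex2))) ρ : ℝ) * f) := hk
        _ ≤ c3 * (1 * f) :=
            mul_le_mul_of_nonneg_left (mul_le_mul_of_nonneg_right hr1 hfp.le) hc30.le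
        _ = c3 * f := by ring
    by_cases hemp : (S.filter fun ρ => ¬ 2 ≤ rr (PP G (a N)) ρ) = ∅
    · rw [hemp, Finset.card_empty, Nat.cast_zero]
      positivity
    · obtain ⟨ρ₁, hρ₁⟩ := Finset.nonempty_iff_ne_empty.2 hemp
      have hex3 : ∃ i, ((PP G (a i)).card : ℝ) ≤ c3 * f / M := by
        obtain ⟨i, _, hi⟩ := hidx ρ₁ hρ₁
        exact ⟨i, hi⟩
      have hi0 := Nat.find_spec hex3
      have hsub : (S.filter fun ρ => ¬ 2 ≤ rr (PP G (a N)) ρ) ⊆
          ((Finset.univ : Finset (ZMod p)).filter fun ρ => ρ ≠ 0 ∧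
            2 ≤ rr (PP G (a (Nat.find hex3))) ρ) := by
        intro ρ hρ
        obtain ⟨i, hi1, hi2⟩ := hidx ρ hρ
        rw [Finset.mem_filter] at hρ ⊢
        refine ⟨Finset.mem_univ _, hρ0 ρ hρ.1, ?_⟩
        have hle : Nat.find hex3 ≤ i := Nat.find_min' hex3 hi2
        exact le_trans hi1 (lv1_rr_mono (hPPs _ _ hle) ρ)
      have h0 : (0 : ZMod p) ∈ PP G (a (Nat.find hex3)) := zero_mem_PP G (hap _).le
      have hT := hT1.1 p (PP G (a (Nat.find hex3))) h0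
      have hcard := Finset.card_le_card hsub
      have hcard' : ((S.filter fun ρ => ¬ 2 ≤ rr (PP G (a N)) ρ).card : ℝ) ≤
          (((Finset.univ : Finset (ZMod p)).filter fun ρ => ρ ≠ 0 ∧
            2 ≤ rr (PP G (a (Nat.find hex3))) ρ).card : ℝ) := by
        exact_mod_cast hcard
      refine hcard'.trans ?_
      refine le_trans (le_of_eq ?_) (hT.trans (pow_le_pow_left₀ (hfpos _).le hi0 2))
      congr 1
  have htot : (S.card : ℝ) ≤ C' * Q * (c3 * f / M) ^ 2 + (c3 * f / M) ^ 2 := by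
    have hsum := Finset.card_filter_add_card_filter_not (s := S)
      (fun ρ => 2 ≤ rr (PP G (a N)) ρ)
    have hsum' : (S.card : ℝ) = ((S.filter fun ρ => 2 ≤ rr (PP G (a N)) ρ).card : ℝ) +
        ((S.filter fun ρ => ¬ 2 ≤ rr (PP G (a N)) ρ).card : ℝ) := by
      rw [← hsum]; push_cast; rfl
    rw [hsum']
    exact add_le_add hcase1 hcase2
  refine htot.trans ?_
  rw [← hf]
  have hX : (c3 * f / M) ^ 2 = c3 ^ 2 * (f / M) ^ 2 := by ring
  rw [hX]
  have hY : 0 ≤ c3 ^ 2 * (f / M) ^ 2 := by positivity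
  calc C' * Q * (c3 ^ 2 * (f / M) ^ 2) + c3 ^ 2 * (f / M) ^ 2
      ≤ C' * Q * (c3 ^ 2 * (f / M) ^ 2) + Q * (c3 ^ 2 * (f / M) ^ 2) := by
        have : 1 * (c3 ^ 2 * (f / M) ^ 2) ≤ Q * (c3 ^ 2 * (f / M) ^ 2) :=
          mul_le_mul_of_nonneg_right hpp hY
        linarith
    _ = (C' + 1) * c3 ^ 2 * Q * (f / M) ^ 2 := by ring

end Pool.Agent.helper85.PG
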