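import Pool.Agent.helper33.PG.Spec

set_option autoImplicit false

namespace Pool.Agent.PG

open Polynomial Finset

lemma COF_G (q a b m : ℕ) : (G q a b).coeff m = if m < q - a then gco q a b m else 0 := by
  unfold G
  rw [finsetSum_coeff]
  simp only [coeff_C_mul, coeff_X_pow, mul_ite, mul_one, mul_zero]
  rw [Finset.sum_ite_eq]
  simp only [Finset.mem_range]

lemma COF_pow (M : ℕ) : (1 - X : ℤ[X]) ^ M =
    ∑ i ∈ range (M + 1), C ((-1) ^ i * (M.choose i : ℤ)) * X ^ i := by
  have h : (1 - X : ℤ[X]) = -X + 1 := by ring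
  rw [h, add_pow]
  apply Finset.sum_congr rfl
  intro i _
  rw [one_pow, mul_one, neg_pow, map_mul, map_pow, map_neg, map_one]
  simp only [map_natCast]
  ring

theorem COF : COF_stmt := by
  intro q a b j
  unfold S
  rw [COF_pow, Finset.sum_mul, finsetSum_coeff]
  apply Finset.sum_congr rfl
  intro i _
  rw [mul_assoc, coeff_C_mul, coeff_X_pow_mul', COF_G]
  by_cases h1 : i ≤ j
  · by_cases h2 : j - i < q - a
    · rw [if_pos h1, if_pos h2, if_pos ⟨h1, h2⟩]
    · rw [if_pos h1, if_neg h2, if_neg (fun h => h2 h.2), mul_zero]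
  · rw [if_neg h1, if_neg (fun h => h1 h.1), mul_zero]

end Pool.Agent.PG
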